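import Pool.Agent.Helper5.BEC.C.Main

/-! MP_436ed3_co: the Bollobás–Eldridge–Catlin conjecture holds asymptotically: if
`(D₁ + 1)(D₂ + 1) ≤ (1 - ε) n` and `n ≥ n₀(ε)`, then graphs on `n` vertices with degrees at most
`D₁` and `D₂` pack. -/

set_option autoImplicit false

namespace Pool.Agent.Results.MP_436ed3_co.AsymptoticConjecture

theorem result (ε : ℝ) (hε : 0 < ε) :
    ∃ n₀ : ℕ, ∀ (V : Type) [Fintype V] (G₁ G₂ : SimpleGraph V) (D₁ D₂ : ℕ),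
      n₀ ≤ Fintype.card V →
      (∀ v, (G₁.neighborSet v).ncard ≤ D₁) → (∀ v, (G₂.neighborSet v).ncard ≤ D₂) →
      ((D₁ : ℝ) + 1) * (D₂ + 1) ≤ (1 - ε) * Fintype.card V →
      ∃ τ : Equiv.Perm V, ∀ u v, G₁.Adj u v → ¬ G₂.Adj (τ u) (τ v) :=
  Pool.Agent.Helper5.BEC.C.asymptotic ε hε

end Pool.Agent.Results.MP_436ed3_co.AsymptoticConjecture
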