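import Pool.Agent.Helper14.BECX.SimpleEps

/-! MP_436ed3_co: graphs of maximum degree at most `k` with at least `ε n` vertices outside the
complete subgraphs on `k + 1` vertices pack beyond the Bollobás–Eldridge–Catlin bound:
`(k + 1) D ≤ (1 + γ) n` suffices for `n ≥ n₀`, where `D` bounds the degrees of the other graph. -/

set_option autoImplicit false

namespace Pool.Agent.Results.MP_436ed3_co.BeyondTheBound

theorem result (k : ℕ) (hk : 2 ≤ k) (ε : ℝ) (hε : 0 < ε) :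
    ∃ γ : ℝ, 0 < γ ∧ ∃ n₀ : ℕ, ∀ (V : Type) [Fintype V] (G₁ G₂ : SimpleGraph V) (D : ℕ),
      n₀ ≤ Fintype.card V → (∀ v, (G₁.neighborSet v).ncard ≤ k) →
      ε * Fintype.card V ≤ {v | ∀ s : Finset V, G₁.IsNClique (k + 1) s → v ∉ s}.ncard →
      (∀ v, (G₂.neighborSet v).ncard ≤ D) → ((k : ℝ) + 1) * D ≤ (1 + γ) * Fintype.card V →
      ∃ σ : Equiv.Perm V, ∀ u v, G₁.Adj u v → ¬ G₂.Adj (σ u) (σ v) :=
  Pool.Agent.Helper14.BECX.cplus_eps_simple k hk ε hε

end Pool.Agent.Results.MP_436ed3_co.BeyondTheBound
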