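import Pool.Agent.Helper64.BEC.Final

/-! MP_436ed3_co: two graphs pack if every connected component of the second one has at most `c`
vertices and `(Δ(G₁) + 1) c ≤ n + 1`. -/

set_option autoImplicit false

namespace Pool.Agent.Results.MP_436ed3_co.CliqueComponents

theorem result {V : Type*} [Fintype V] (G₁ G₂ : SimpleGraph V) [DecidableRel G₁.Adj] (c : ℕ)
    (hc : ∀ v, {w | G₂.Reachable v w}.ncard ≤ c)
    (h : (G₁.maxDegree + 1) * c ≤ Fintype.card V + 1) :
    ∃ σ : Equiv.Perm V, ∀ u v, G₁.Adj u v → ¬ G₂.Adj (σ u) (σ v) := by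
  refine Pool.Agent.Helper64.BEC.packing G₁ G₂ G₁.maxDegree c ?_ hc h
  intro v
  have h1 := G₁.degree_le_maxDegree v
  rw [← SimpleGraph.card_neighborFinset_eq_degree] at h1
  refine le_trans (Finset.card_le_card ?_) h1
  intro w hw
  have hw2 : G₁.Adj v w := (Pool.Agent.Helper64.BEC.mem_nbs.mp hw).2
  exact (SimpleGraph.mem_neighborFinset _ _ _).mpr hw2

end Pool.Agent.Results.MP_436ed3_co.CliqueComponents
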