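import Pool.Agent.Helper14.BECX.Exact

/-! MP_436ed3_co: the Bollobás–Eldridge–Catlin conjecture in exact form for every fixed bound `k`
of the degrees of one of the two graphs and all `n ≥ n₀(k)`. -/

set_option autoImplicit false

namespace Pool.Agent.Results.MP_436ed3_co.ExactBoundedDegree

theorem result (k : ℕ) :
    ∃ n₀ : ℕ, ∀ (V : Type) [Fintype V] (G₁ G₂ : SimpleGraph V) (D : ℕ), n₀ ≤ Fintype.card V →
      (∀ v, (G₁.neighborSet v).ncard ≤ k) → (∀ v, (G₂.neighborSet v).ncard ≤ D) →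
      (k + 1) * (D + 1) ≤ Fintype.card V + 1 →
      ∃ σ : Equiv.Perm V, ∀ u v, G₁.Adj u v → ¬ G₂.Adj (σ u) (σ v) :=
  Pool.Agent.Helper14.BECX.exact_simple k

end Pool.Agent.Results.MP_436ed3_co.ExactBoundedDegree
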